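import Pool.Agent.MP_51ecca_nt.By2

namespace Pool.Agent.Results.MP_51ecca_nt.LargeFactor

open Pool.Agent.MP_51ecca_nt Polynomial

/-- In every tower, for all large n and every prime l, the numerator of the zeta function of the
n-th layer has an irreducible factor over the l-adic numbers whose degree is at least the degree
of the field of p ^ n-th roots of unity divided by the totient of 2 p. -/
theorem result (p : ℕ) [Fact p.Prime] (k K L : Type) [Field k] [Finite k] [CharP k p]
    [Field K] [Field L] [Algebra k K] [Algebra K L] [Algebra k L] [IsScalarTower k K L]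
    [Algebra.EssFiniteType k K] (htr : Algebra.trdeg k K = 1)
    (T : ℕ → IntermediateField K L) (hmono : Monotone T)
    (hgal : ∀ n, IsGalois K (T n))
    (hcyc : ∀ n, Nonempty ((T n ≃ₐ[K] T n) ≃* Multiplicative (ZMod (p ^ n))))
    (hgeom : ∀ n, algebraicClosure k (T n) = ⊥)
    (hS : (ramificationLocus k T).Finite) :
    ∃ P : ℕ → ℚ[X],
      (∀ n, (P n : PowerSeries ℚ) =
        (1 - PowerSeries.X) * (1 - (Nat.card k : PowerSeries ℚ) * PowerSeries.X) *
          zetaSeries k (T n)) ∧
      ∀ᶠ n in Filter.atTop, ∀ (l : ℕ) [Fact l.Prime], ∃ f : ℚ_[l][X], Irreducible f ∧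
        f ∣ (P n).map (algebraMap ℚ ℚ_[l]) ∧
        Module.finrank ℚ_[l] (CyclotomicField (p ^ n) ℚ_[l]) ≤ (2 * p).totient * f.natDegree := by
  obtain ⟨P, hP, h⟩ := one_root p k K L htr T hmono hgal hcyc hgeom hS
  exact ⟨P, hP, h.mono fun n hn l _ => hn ℚ_[l]⟩

end Pool.Agent.Results.MP_51ecca_nt.LargeFactor
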