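import Pool.Agent.Mg.F43e117.G4b00aa

namespace Pool.Agent.Results.MP_51ecca_nt.Wan

open Pool.Agent.MP_51ecca_nt Polynomial

theorem result (p : ℕ) [Fact p.Prime] (k K L : Type) [Field k] [Finite k] [CharP k p]
    [Field K] [Field L] [Algebra k K] [Algebra K L] [Algebra k L] [IsScalarTower k K L]
    [Algebra.EssFiniteType k K] (htr : Algebra.trdeg k K = 1)
    (T : ℕ → IntermediateField K L) (hmono : Monotone T)
    (hgal : ∀ n, IsGalois K (T n))
    (hcyc : ∀ n, Nonempty ((T n ≃ₐ[K] T n) ≃* Multiplicative (ZMod (p ^ n))))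
    (hgeom : ∀ n, algebraicClosure k (T n) = ⊥)
    (hS : (ramificationLocus k T).Finite) :
    ∃ P : ℕ → ℚ[X],
      (∀ n, (P n : PowerSeries ℚ) =
        (1 - PowerSeries.X) * (1 - (Nat.card k : PowerSeries ℚ) * PowerSeries.X) *
          zetaSeries k (T n)) ∧
      ∃ c : ℝ, 0 < c ∧ ∀ᶠ n in Filter.atTop,
        c * (p : ℝ) ^ n ≤ ((IsLocalRing.maximalIdeal ℤ_[p]).ramificationIdxIn
          (integralClosure ℤ_[p] ((P n).map (algebraMap ℚ ℚ_[p])).SplittingField) : ℕ) :=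
  wan p k K L htr T hmono hgal hcyc hgeom hS

end Pool.Agent.Results.MP_51ecca_nt.Wan
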